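import Mathlib

set_option autoImplicit false

namespace Pool.Agent.Helper61

open Topology Filter

/-- Pelczynski decomposition (elementary version). -/
theorem pelczynski {X Y W V : Type*}
    [AddCommGroup X] [Module ℝ X] [TopologicalSpace X]
    [AddCommGroup Y] [Module ℝ Y] [TopologicalSpace Y]
    [AddCommGroup W] [Module ℝ W] [TopologicalSpace W]
    [AddCommGroup V] [Module ℝ V] [TopologicalSpace V]
    (eX : X ≃L[ℝ] X × X) (eY : Y ≃L[ℝ] Y × Y) (h1 : X ≃L[ℝ] Y × W) (h2 : Y ≃L[ℝ] X × V) :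
    Nonempty (Y ≃L[ℝ] X) := by
  -- X ≃ Y × W ≃ (Y × Y) × W ≃ Y × (Y × W) ≃ Y × X
  have a : X ≃L[ℝ] Y × X :=
    (h1.trans (eY.prodCongr (ContinuousLinearEquiv.refl ℝ W))).trans
      ((ContinuousLinearEquiv.prodAssoc ℝ Y Y W).trans
        ((ContinuousLinearEquiv.refl ℝ Y).prodCongr h1.symm))
  have b : Y ≃L[ℝ] X × Y :=
    (h2.trans (eX.prodCongr (ContinuousLinearEquiv.refl ℝ V))).trans
      ((ContinuousLinearEquiv.prodAssoc ℝ X X V).trans
        ((ContinuousLinearEquiv.refl ℝ X).prodCongr h2.symm))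
  exact ⟨(b.trans (ContinuousLinearEquiv.prodComm ℝ X Y)).trans a.symm⟩

section general

variable {X : Type*} [NormedAddCommGroup X] [NormedSpace ℝ X] [CompleteSpace X]

/-- `C(Ω, X) ≃ C(Ω, X) × C(Ω, X)` when `X ≃ X × X`. -/
noncomputable def contProdEquiv {Ω : Type*} [TopologicalSpace Ω] (eX : X ≃L[ℝ] X × X) :
    C(Ω, X) ≃L[ℝ] C(Ω, X) × C(Ω, X) :=
  ContinuousLinearEquiv.equivOfInverse
    (((ContinuousLinearMap.fst ℝ X X ∘L (eX : X →L[ℝ] X × X)).compLeftContinuous ℝ Ω).prod
      ((ContinuousLinearMap.snd ℝ X X ∘L (eX : X →L[ℝ] X × X)).compLeftContinuous ℝ Ω))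
    ((((eX.symm : X × X →L[ℝ] X) ∘L ContinuousLinearMap.inl ℝ X X).compLeftContinuous ℝ Ω).coprod
      (((eX.symm : X × X →L[ℝ] X) ∘L ContinuousLinearMap.inr ℝ X X).compLeftContinuous ℝ Ω))
    (by
      intro f
      ext x
      have : eX.symm ((eX (f x)).1, (0 : X)) + eX.symm ((0 : X), (eX (f x)).2) = f x := by
        rw [← map_add]; simp
      simpa using this)
    (by
      rintro ⟨f, g⟩
      ext x <;> simp)

/-- constant functions -/
noncomputable def constL : X →L[ℝ] C(OnePoint ℕ, X) :=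
  LinearMap.mkContinuous
    { toFun := fun x => ContinuousMap.const _ x
      map_add' := fun x y => by ext; simp
      map_smul' := fun c x => by ext; simp } 1
    (fun x => by
      rw [one_mul]
      refine (ContinuousMap.norm_le _ (norm_nonneg _)).2 (fun t => ?_)
      simp)

omit [CompleteSpace X] in
@[simp] lemma constL_apply (x : X) (t : OnePoint ℕ) : constL x t = x := rfl

lemma mkNat_coe {Y : Type*} [TopologicalSpace Y] (f : ℕ → Y) (y : Y) (h : Tendsto f atTop (𝓝 y))
    (n : ℕ) : OnePoint.continuousMapMkNat f y h (n : OnePoint ℕ) = f n := rfl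

lemma mkNat_infty {Y : Type*} [TopologicalSpace Y] (f : ℕ → Y) (y : Y) (h : Tendsto f atTop (𝓝 y)) :
    OnePoint.continuousMapMkNat f y h (OnePoint.infty : OnePoint ℕ) = y := rfl

/-- The operator `x ↦ (T n x)_n` into null sequences. -/
noncomputable def seqL (T : ℕ → X →L[ℝ] X) (hT : ∀ n, ‖T n‖ ≤ 1)
    (hT0 : ∀ x, Tendsto (fun n => T n x) atTop (𝓝 0)) : X →L[ℝ] C(OnePoint ℕ, X) :=
  LinearMap.mkContinuous
    { toFun := fun x => OnePoint.continuousMapMkNat (fun n => T n x) 0 (hT0 x)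
      map_add' := fun x y => by
        ext t
        induction t using OnePoint.rec with
        | infty => simp only [ContinuousMap.add_apply, mkNat_infty, add_zero]
        | coe n => simp only [ContinuousMap.add_apply, mkNat_coe, map_add]
      map_smul' := fun c x => by
        ext t
        induction t using OnePoint.rec with
        | infty => simp only [ContinuousMap.smul_apply, mkNat_infty, smul_zero]
        | coe n => simp only [ContinuousMap.smul_apply, mkNat_coe, map_smul, RingHom.id_apply] } 1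
    (fun x => by
      rw [one_mul]
      refine (ContinuousMap.norm_le _ (norm_nonneg _)).2 (fun t => ?_)
      induction t using OnePoint.rec with
      | infty =>
        change ‖(0 : X)‖ ≤ ‖x‖
        rw [norm_zero]; exact norm_nonneg _
      | coe n =>
        change ‖T n x‖ ≤ ‖x‖
        calc ‖T n x‖ ≤ ‖T n‖ * ‖x‖ := (T n).le_opNorm x
          _ ≤ 1 * ‖x‖ := by gcongr; exact hT n
          _ = ‖x‖ := one_mul _)

omit [CompleteSpace X] in
lemma seqL_coe (T : ℕ → X →L[ℝ] X) (hT : ∀ n, ‖T n‖ ≤ 1)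
    (hT0 : ∀ x, Tendsto (fun n => T n x) atTop (𝓝 0)) (x : X) (n : ℕ) :
    seqL T hT hT0 x (n : OnePoint ℕ) = T n x := rfl

omit [CompleteSpace X] in
lemma seqL_infty (T : ℕ → X →L[ℝ] X) (hT : ∀ n, ‖T n‖ ≤ 1)
    (hT0 : ∀ x, Tendsto (fun n => T n x) atTop (𝓝 0)) (x : X) :
    seqL T hT hT0 x (OnePoint.infty : OnePoint ℕ) = 0 := rfl

omit [NormedSpace ℝ X] [CompleteSpace X] in
lemma tendsto_coe (h : C(OnePoint ℕ, X)) :
    Tendsto (fun n : ℕ => h (n : OnePoint ℕ)) atTop (𝓝 (h OnePoint.infty)) :=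
  (OnePoint.continuous_iff_from_nat h).1 h.continuous

lemma summable_S (S : ℕ → X →L[ℝ] X)
    (hS : ∀ (F : Finset ℕ) (x : ℕ → X) (C : ℝ), 0 ≤ C → (∀ n ∈ F, ‖x n‖ ≤ C) →
      ‖∑ n ∈ F, S n (x n)‖ ≤ C) (h : C(OnePoint ℕ, X)) :
    Summable (fun n : ℕ => S n (h (n : OnePoint ℕ) - h OnePoint.infty)) := by
  rw [summable_iff_vanishing_norm]
  intro ε hε
  have h1 : Tendsto (fun n : ℕ => h (n : OnePoint ℕ) - h OnePoint.infty) atTop (𝓝 0) := by
    have := (tendsto_coe h).sub_const (h OnePoint.infty)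
    simpa using this
  have h2 := (Metric.tendsto_atTop.1 h1) (ε / 2) (half_pos hε)
  obtain ⟨N, hN⟩ := h2
  refine ⟨Finset.range N, fun t ht => ?_⟩
  have : ‖∑ n ∈ t, S n (h (n : OnePoint ℕ) - h OnePoint.infty)‖ ≤ ε / 2 := by
    apply hS t _ _ (half_pos hε).le
    intro n hn
    have hn' : N ≤ n := by
      by_contra hcon
      exact (Finset.disjoint_left.1 ht hn) (Finset.mem_range.2 (not_le.1 hcon))
    have := hN n hn'
    rw [dist_zero_right] at this
    exact this.le
  linarith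

/-- The operator `h ↦ ∑ S n (h n - h ∞)`. -/
noncomputable def sumL (S : ℕ → X →L[ℝ] X)
    (hS : ∀ (F : Finset ℕ) (x : ℕ → X) (C : ℝ), 0 ≤ C → (∀ n ∈ F, ‖x n‖ ≤ C) →
      ‖∑ n ∈ F, S n (x n)‖ ≤ C) : C(OnePoint ℕ, X) →L[ℝ] X :=
  LinearMap.mkContinuous
    { toFun := fun h => ∑' n : ℕ, S n (h (n : OnePoint ℕ) - h OnePoint.infty)
      map_add' := fun h k => by
        rw [← (summable_S S hS h).tsum_add (summable_S S hS k)]
        congr 1
        ext n
        rw [← map_add]
        congr 1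
        simp only [ContinuousMap.add_apply]
        abel
      map_smul' := fun c h => by
        simp only [RingHom.id_apply]
        rw [← tsum_const_smul'' c]
        congr 1
        ext n
        rw [← map_smul]
        congr 1
        simp only [ContinuousMap.smul_apply, smul_sub] } 2
    (fun h => by
      have hs := (summable_S S hS h).hasSum
      refine le_of_tendsto hs.norm (Eventually.of_forall (fun F => ?_))
      apply hS F _ _ (by positivity)
      intro n _
      calc ‖h (n : OnePoint ℕ) - h OnePoint.infty‖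
          ≤ ‖h (n : OnePoint ℕ)‖ + ‖h OnePoint.infty‖ := norm_sub_le _ _
        _ ≤ ‖h‖ + ‖h‖ := add_le_add (h.norm_coe_le_norm _) (h.norm_coe_le_norm _)
        _ = 2 * ‖h‖ := by ring)

lemma sumL_apply (S : ℕ → X →L[ℝ] X)
    (hS : ∀ (F : Finset ℕ) (x : ℕ → X) (C : ℝ), 0 ≤ C → (∀ n ∈ F, ‖x n‖ ≤ C) →
      ‖∑ n ∈ F, S n (x n)‖ ≤ C) (h : C(OnePoint ℕ, X)) :
    sumL S hS h = ∑' n : ℕ, S n (h (n : OnePoint ℕ) - h OnePoint.infty) := rfl

/-- Operators `T n` tending strongly to `0`, with a right inverse system `S n` that spans `c_0`-sums: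
then `C(Ω, X) ≃ X`, where `Ω = ℕ ∪ {∞}`. -/
theorem key (eX : X ≃L[ℝ] X × X) (T S : ℕ → X →L[ℝ] X)
    (hT : ∀ n, ‖T n‖ ≤ 1) (hT0 : ∀ x, Tendsto (fun n => T n x) atTop (𝓝 0))
    (hTS : ∀ n x, T n (S n x) = x) (hTS0 : ∀ n m x, n ≠ m → T n (S m x) = 0)
    (hS : ∀ (F : Finset ℕ) (x : ℕ → X) (C : ℝ), 0 ≤ C → (∀ n ∈ F, ‖x n‖ ≤ C) →
      ‖∑ n ∈ F, S n (x n)‖ ≤ C) :
    Nonempty (C(OnePoint ℕ, X) ≃L[ℝ] X) := by
  let evI : C(OnePoint ℕ, X) →L[ℝ] X := ContinuousMap.evalCLM ℝ OnePoint.infty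
  -- X × X → C(Ω, X)
  let TT : X × X →L[ℝ] C(OnePoint ℕ, X) := (seqL T hT hT0).coprod constL
  let SS : C(OnePoint ℕ, X) →L[ℝ] X × X := (sumL S hS).prod evI
  have hTTSS : Function.RightInverse SS TT := by
    intro h
    have hsum : ∀ n, T n (sumL S hS h) = h (n : OnePoint ℕ) - h OnePoint.infty := by
      intro n
      rw [sumL_apply, (T n).map_tsum (summable_S S hS h), tsum_eq_single n]
      · exact hTS _ _
      · intro m hm
        exact hTS0 _ _ _ hm.symm
    ext t
    induction t using OnePoint.rec with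
    | infty =>
      change seqL T hT hT0 (sumL S hS h) OnePoint.infty + constL (h OnePoint.infty) OnePoint.infty = _
      rw [seqL_infty, constL_apply, zero_add]
    | coe n =>
      change seqL T hT hT0 (sumL S hS h) n + constL (h OnePoint.infty) n = _
      rw [seqL_coe, constL_apply, hsum]
      abel
  have h1 := eX.trans (ContinuousLinearEquiv.equivOfRightInverse TT SS hTTSS)
  have hconst : Function.RightInverse (constL : X →L[ℝ] C(OnePoint ℕ, X)) evI := fun x => rfl
  have h2 := ContinuousLinearEquiv.equivOfRightInverse evI constL hconst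
  exact pelczynski eX (contProdEquiv eX) h1 h2

end general

section concrete

/-- The Stone-Cech compactification of the discrete space `ℕ`. -/
abbrev B := StoneCech ℕ
/-- The product of two copies. -/
abbrev L := B × B
/-- The Banach space of real continuous functions on the product. -/
abbrev X := C(L, ℝ)

instance : TotallyDisconnectedSpace B := by
  have : ExtremallyDisconnected B :=
    CompactT2.Projective.extremallyDisconnected (StoneCech.projective (X := ℕ))
  infer_instance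

/-- unit -/
noncomputable abbrev u (n : ℕ) : B := stoneCechUnit n

/-- The continuous extension of a self-map of `ℕ`. -/
noncomputable def ext (φ : ℕ → ℕ) : C(B, B) :=
  ⟨stoneCechExtend (g := fun n => u (φ n)) continuous_of_discreteTopology,
    continuous_stoneCechExtend _⟩

lemma ext_unit (φ : ℕ → ℕ) (n : ℕ) : ext φ (u n) = u (φ n) :=
  stoneCechExtend_stoneCechUnit (g := fun n => u (φ n)) continuous_of_discreteTopology n

/-- The continuous extension of the indicator function of a subset of `ℕ`. -/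
noncomputable def ind (p : ℕ → Bool) : C(B, ℝ) :=
  (⟨fun b : Bool => if b then (1 : ℝ) else 0, continuous_of_discreteTopology⟩ : C(Bool, ℝ)).comp
    ⟨stoneCechExtend (g := p) continuous_of_discreteTopology, continuous_stoneCechExtend _⟩

lemma ind_unit (p : ℕ → Bool) (n : ℕ) : ind p (u n) = if p n then 1 else 0 := by
  change (if (stoneCechExtend (g := p) continuous_of_discreteTopology (u n)) then (1 : ℝ) else 0) = _
  rw [stoneCechExtend_stoneCechUnit]

lemma denseL : DenseRange (fun p : ℕ × ℕ => ((u p.1, u p.2) : L)) :=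
  denseRange_stoneCechUnit.prodMap denseRange_stoneCechUnit

lemma ext_of_dense (f g : X) (h : ∀ m n, f (u m, u n) = g (u m, u n)) : f = g := by
  apply ContinuousMap.ext
  intro p
  have := denseL.equalizer f.continuous g.continuous (by
    funext q
    exact h q.1 q.2)
  exact congrFun this p

lemma norm_le_of_dense (f : X) (C : ℝ) (hC : 0 ≤ C) (h : ∀ m n, |f (u m, u n)| ≤ C) : ‖f‖ ≤ C := by
  refine (ContinuousMap.norm_le _ hC).2 (fun p => ?_)
  refine denseL.induction_on p ?_ ?_
  · exact isClosed_le (by fun_prop) continuous_const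
  · rintro ⟨m, n⟩
    exact h m n

/-- Composition operator. -/
noncomputable def compL (g : C(L, L)) : X →L[ℝ] X :=
  ⟨(ContinuousMap.compRightAlgHom ℝ ℝ g).toLinearMap, ContinuousMap.compRightAlgHom_continuous ℝ ℝ g⟩

lemma compL_apply (g : C(L, L)) (f : X) (p : L) : compL g f p = f (g p) := rfl

lemma norm_compL (g : C(L, L)) : ‖compL g‖ ≤ 1 := by
  refine ContinuousLinearMap.opNorm_le_bound _ zero_le_one (fun f => ?_)
  rw [one_mul]
  refine (ContinuousMap.norm_le _ (norm_nonneg _)).2 (fun p => ?_)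
  rw [compL_apply]
  exact f.norm_coe_le_norm _

/-- The continuous extension of a product map. -/
noncomputable def ext2 (φ ψ : ℕ → ℕ) : C(L, L) := (ext φ).prodMap (ext ψ)

lemma ext2_unit (φ ψ : ℕ → ℕ) (m n : ℕ) : ext2 φ ψ (u m, u n) = (u (φ m), u (ψ n)) := by
  change ((ext φ) (u m), (ext ψ) (u n)) = _
  rw [ext_unit, ext_unit]

/-- Multiplication operator. -/
noncomputable def mulL (w : X) : X →L[ℝ] X := ContinuousLinearMap.mul ℝ X w

lemma mulL_apply (w f : X) (p : L) : mulL w f p = w p * f p := rfl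

/-- `C(βℕ × βℕ)` is isomorphic to its square. -/
noncomputable def eX : X ≃L[ℝ] X × X :=
  ContinuousLinearEquiv.equivOfInverse
    ((compL (ext2 (fun x => 2 * x) id)).prod (compL (ext2 (fun x => 2 * x + 1) id)))
    ((mulL ((ind (fun m => decide (m % 2 = 0))).prodMul (1 : C(B, ℝ))) ∘L
        compL (ext2 (fun m => m / 2) id)).coprod
      (mulL ((ind (fun m => decide (m % 2 = 1))).prodMul (1 : C(B, ℝ))) ∘L
        compL (ext2 (fun m => m / 2) id)))
    (by
      intro f
      apply ext_of_dense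
      intro m n
      simp only [ContinuousLinearMap.prod_apply, ContinuousLinearMap.coprod_apply,
        ContinuousLinearMap.comp_apply, ContinuousMap.add_apply, mulL_apply, compL_apply,
        ContinuousMap.prodMul_apply, ext2_unit, ind_unit, ContinuousMap.one_apply, id]
      rcases Nat.mod_two_eq_zero_or_one m with h | h
      · have : 2 * (m / 2) = m := by omega
        simp [h, this]
      · have : 2 * (m / 2) + 1 = m := by omega
        simp [h, this])
    (by
      rintro ⟨f, g⟩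
      simp only [ContinuousLinearMap.prod_apply, ContinuousLinearMap.coprod_apply, Prod.mk.injEq]
      constructor
      · apply ext_of_dense
        intro m n
        simp only [ContinuousLinearMap.comp_apply, ContinuousMap.add_apply, mulL_apply, compL_apply,
          ContinuousMap.prodMul_apply, ext2_unit, ind_unit, ContinuousMap.one_apply, id]
        have h1 : (2 * m) % 2 = 0 := by omega
        have h2 : (2 * m) / 2 = m := by omega
        simp [h1, h2]
      · apply ext_of_dense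
        intro m n
        simp only [ContinuousLinearMap.comp_apply, ContinuousMap.add_apply, mulL_apply, compL_apply,
          ContinuousMap.prodMul_apply, ext2_unit, ind_unit, ContinuousMap.one_apply, id]
        have h1 : (2 * m + 1) % 2 = 1 := by omega
        have h2 : (2 * m + 1) / 2 = m := by omega
        simp [h1, h2])

/-- Sign. -/
def sg {N : ℕ} (s : Fin N → Bool) (i : Fin N) : ℝ := if s i then 1 else -1

lemma sg_sq {N : ℕ} (s : Fin N → Bool) (i : Fin N) : sg s i * sg s i = 1 := by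
  unfold sg; split <;> norm_num

lemma abs_sg {N : ℕ} (s : Fin N → Bool) (i : Fin N) : |sg s i| = 1 := by
  unfold sg; split <;> norm_num

lemma sum_sg_sg {N : ℕ} (i j : Fin N) (hij : i ≠ j) :
    ∑ s : Fin N → Bool, sg s i * sg s j = 0 := by
  refine Finset.sum_involution (fun s _ => Function.update s i (!s i)) ?_ ?_ ?_ ?_
  · intro s _
    have h1 : sg (Function.update s i (!s i)) i = - sg s i := by
      unfold sg; simp only [Function.update_self]; cases s i <;> simp
    have h2 : sg (Function.update s i (!s i)) j = sg s j := by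
      unfold sg; rw [Function.update_of_ne hij.symm]
    rw [h1, h2]; ring
  · intro s _ _ h
    have := congrFun h i
    rw [Function.update_self] at this
    cases h' : s i <;> simp [h'] at this
  · intro s _; exact Finset.mem_univ _
  · intro s _
    simp

lemma sum_sq_sg {N : ℕ} (b : Fin N → ℝ) :
    ∑ s : Fin N → Bool, (∑ i, sg s i * b i) ^ 2 = 2 ^ N * ∑ i, b i ^ 2 := by
  have h1 : ∀ s : Fin N → Bool, (∑ i, sg s i * b i) ^ 2
      = ∑ i, ∑ j, (sg s i * sg s j) * (b i * b j) := by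
    intro s
    rw [sq, Finset.sum_mul_sum]
    refine Finset.sum_congr rfl (fun i _ => Finset.sum_congr rfl (fun j _ => by ring))
  simp_rw [h1]
  rw [Finset.sum_comm]
  rw [Finset.mul_sum]
  refine Finset.sum_congr rfl (fun i _ => ?_)
  rw [Finset.sum_comm, Finset.sum_eq_single i]
  · simp only [sg_sq, one_mul, Finset.sum_const, Finset.card_univ, Fintype.card_fun,
      Fintype.card_bool, Fintype.card_fin, nsmul_eq_mul]
    push_cast
    ring
  · intro j _ hj
    rw [← Finset.sum_mul, sum_sg_sg i j hj.symm, zero_mul]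
  · intro h; exact absurd (Finset.mem_univ _) h

/-- The `L¹` Khintchine bound. -/
lemma sum_abs_sg {N : ℕ} (b : Fin N → ℝ) (hb : ∀ i, |b i| ≤ 1) :
    ∑ s : Fin N → Bool, |∑ i, sg s i * b i| ≤ 2 ^ N * Real.sqrt N := by
  have h1 : (∑ s : Fin N → Bool, |∑ i, sg s i * b i|) ^ 2
      ≤ (2 ^ N) * ∑ s : Fin N → Bool, |∑ i, sg s i * b i| ^ 2 := by
    have := sq_sum_le_card_mul_sum_sq (s := (Finset.univ : Finset (Fin N → Bool)))
      (f := fun s => |∑ i, sg s i * b i|)
    simpa using this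
  have h2 : ∑ s : Fin N → Bool, |∑ i, sg s i * b i| ^ 2 = 2 ^ N * ∑ i, b i ^ 2 := by
    rw [← sum_sq_sg]
    refine Finset.sum_congr rfl (fun s _ => sq_abs _)
  have h3 : ∑ i, b i ^ 2 ≤ N := by
    calc ∑ i, b i ^ 2 ≤ ∑ i : Fin N, (1 : ℝ) := by
          refine Finset.sum_le_sum (fun i _ => ?_)
          rw [← sq_abs]
          have := hb i
          have h0 := abs_nonneg (b i)
          nlinarith
      _ = N := by simp
  have h4 : (∑ s : Fin N → Bool, |∑ i, sg s i * b i|) ^ 2 ≤ (2 ^ N * Real.sqrt N) ^ 2 := by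
    rw [mul_pow, Real.sq_sqrt (Nat.cast_nonneg N)]
    calc _ ≤ _ := h1
      _ = (2 ^ N) * (2 ^ N * ∑ i, b i ^ 2) := by rw [h2]
      _ ≤ (2 ^ N) * (2 ^ N * N) := by gcongr
      _ = (2 ^ N) ^ 2 * N := by ring
  exact le_of_sq_le_sq h4 (by positivity)

/-- index of the first coordinate -/
def e1 (n : ℕ) (s : Fin (n + 1) → Bool) : ℕ :=
  Encodable.encode (⟨n, s⟩ : Σ n : ℕ, (Fin (n + 1) → Bool))

/-- index of the second coordinate -/
def e2 (n : ℕ) (i : Fin (n + 1)) : ℕ :=
  Encodable.encode (⟨n, i⟩ : Σ n : ℕ, Fin (n + 1))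

lemma e1_inj {n m : ℕ} {s : Fin (n + 1) → Bool} {t : Fin (m + 1) → Bool} (h : e1 n s = e1 m t) :
    (⟨n, s⟩ : Σ n : ℕ, (Fin (n + 1) → Bool)) = ⟨m, t⟩ := Encodable.encode_injective h

lemma e2_inj {n m : ℕ} {i : Fin (n + 1)} {j : Fin (m + 1)} (h : e2 n i = e2 m j) :
    (⟨n, i⟩ : Σ n : ℕ, Fin (n + 1)) = ⟨m, j⟩ := Encodable.encode_injective h

/-- The operators `T n`. -/
noncomputable def TT (n : ℕ) : X →L[ℝ] X :=
  ∑ s : Fin (n + 1) → Bool, ∑ i : Fin (n + 1),
    (sg s i / ((n + 1) * 2 ^ (n + 1))) • compL (ext2 (Nat.pair (e1 n s)) (Nat.pair (e2 n i)))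

lemma TT_apply (n : ℕ) (f : X) (p : L) :
    TT n f p = ∑ s : Fin (n + 1) → Bool, ∑ i : Fin (n + 1),
      (sg s i / ((n + 1) * 2 ^ (n + 1))) *
        f (ext (Nat.pair (e1 n s)) p.1, ext (Nat.pair (e2 n i)) p.2) := by
  unfold TT
  simp only [_root_.sum_apply, ContinuousMap.coe_sum, Finset.sum_apply]
  rfl

lemma norm_TT (n : ℕ) : ‖TT n‖ ≤ 1 := by
  refine ContinuousLinearMap.opNorm_le_bound _ zero_le_one (fun f => ?_)
  rw [one_mul]
  refine (ContinuousMap.norm_le _ (norm_nonneg _)).2 (fun p => ?_)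
  rw [TT_apply, Real.norm_eq_abs]
  calc _ ≤ ∑ s : Fin (n + 1) → Bool, |∑ i : Fin (n + 1),
      (sg s i / ((n + 1) * 2 ^ (n + 1))) *
        f (ext (Nat.pair (e1 n s)) p.1, ext (Nat.pair (e2 n i)) p.2)| :=
        Finset.abs_sum_le_sum_abs _ _
    _ ≤ ∑ s : Fin (n + 1) → Bool, ∑ i : Fin (n + 1), |(sg s i / ((n + 1) * 2 ^ (n + 1))) *
        f (ext (Nat.pair (e1 n s)) p.1, ext (Nat.pair (e2 n i)) p.2)| :=
        Finset.sum_le_sum (fun s _ => Finset.abs_sum_le_sum_abs _ _)
    _ ≤ ∑ s : Fin (n + 1) → Bool, ∑ i : Fin (n + 1), (1 / ((n + 1) * 2 ^ (n + 1))) * ‖f‖ := by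
        refine Finset.sum_le_sum (fun s _ => Finset.sum_le_sum (fun i _ => ?_))
        rw [abs_mul, abs_div, abs_sg, abs_of_pos (by positivity : (0 : ℝ) < (n + 1) * 2 ^ (n + 1))]
        gcongr
        exact f.norm_coe_le_norm _
    _ = ‖f‖ := by
        simp only [Finset.sum_const, Finset.card_univ, Fintype.card_fun, Fintype.card_fin,
          Fintype.card_bool, nsmul_eq_mul]
        push_cast
        field_simp

lemma norm_TT_prodMul (n : ℕ) (f g : C(B, ℝ)) :
    ‖TT n (f.prodMul g)‖ ≤ ‖f‖ * ‖g‖ / Real.sqrt (n + 1) := by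
  have hn : (0 : ℝ) < n + 1 := by positivity
  rcases (norm_nonneg g).eq_or_lt with hg | hg
  · have : g = 0 := norm_eq_zero.1 hg.symm
    subst this
    simp
  refine (ContinuousMap.norm_le _ (by positivity)).2 (fun p => ?_)
  rw [TT_apply]
  simp only [ContinuousMap.prodMul_apply]
  set a : (Fin (n + 1) → Bool) → ℝ := fun s => f (ext (Nat.pair (e1 n s)) p.1) with ha
  set b : Fin (n + 1) → ℝ := fun i => g (ext (Nat.pair (e2 n i)) p.2) with hb
  have e : ∑ s : Fin (n + 1) → Bool, ∑ i : Fin (n + 1),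
      (sg s i / ((n + 1) * 2 ^ (n + 1))) * (a s * b i)
      = (‖g‖ / ((n + 1) * 2 ^ (n + 1))) *
        ∑ s : Fin (n + 1) → Bool, a s * ∑ i, sg s i * (b i / ‖g‖) := by
    rw [Finset.mul_sum]
    refine Finset.sum_congr rfl (fun s _ => ?_)
    rw [Finset.mul_sum, Finset.mul_sum]
    refine Finset.sum_congr rfl (fun i _ => ?_)
    field_simp
  change ‖∑ s : Fin (n + 1) → Bool, ∑ i : Fin (n + 1),
      (sg s i / ((n + 1) * 2 ^ (n + 1))) * (a s * b i)‖ ≤ _
  rw [e, norm_mul, norm_div, norm_norm, Real.norm_eq_abs, Real.norm_eq_abs,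
    abs_of_pos (by positivity : (0 : ℝ) < (n + 1) * 2 ^ (n + 1))]
  have h1 : |∑ s : Fin (n + 1) → Bool, a s * ∑ i, sg s i * (b i / ‖g‖)|
      ≤ ‖f‖ * (2 ^ (n + 1) * Real.sqrt ((n + 1 : ℕ) : ℝ)) := by
    calc _ ≤ ∑ s : Fin (n + 1) → Bool, |a s * ∑ i, sg s i * (b i / ‖g‖)| :=
          Finset.abs_sum_le_sum_abs _ _
      _ ≤ ∑ s : Fin (n + 1) → Bool, ‖f‖ * |∑ i, sg s i * (b i / ‖g‖)| := by
          refine Finset.sum_le_sum (fun s _ => ?_)
          rw [abs_mul]
          gcongr
          exact f.norm_coe_le_norm _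
      _ = ‖f‖ * ∑ s : Fin (n + 1) → Bool, |∑ i, sg s i * (b i / ‖g‖)| := by
          rw [Finset.mul_sum]
      _ ≤ _ := by
          gcongr
          apply sum_abs_sg
          intro i
          rw [abs_div, abs_norm, div_le_one hg]
          exact g.norm_coe_le_norm _
  have h2 : Real.sqrt ((n + 1 : ℕ) : ℝ) * Real.sqrt (n + 1) = n + 1 := by
    push_cast
    exact Real.mul_self_sqrt hn.le
  have h3 : 0 < Real.sqrt ((n : ℝ) + 1) := Real.sqrt_pos.2 hn
  calc _ ≤ ‖g‖ / ((n + 1) * 2 ^ (n + 1)) * (‖f‖ * (2 ^ (n + 1) * Real.sqrt ((n + 1 : ℕ) : ℝ))) := by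
        gcongr
    _ = ‖f‖ * ‖g‖ / Real.sqrt (n + 1) := by
        field_simp
        rw [mul_assoc, h2]
        ring

lemma tendsto_TT_prodMul (f g : C(B, ℝ)) :
    Tendsto (fun n => TT n (f.prodMul g)) atTop (𝓝 0) := by
  rw [tendsto_zero_iff_norm_tendsto_zero]
  refine squeeze_zero (fun n => norm_nonneg _) (fun n => norm_TT_prodMul n f g) ?_
  have h1 : Tendsto (fun n : ℕ => Real.sqrt ((n : ℝ) + 1)) atTop atTop := by
    refine Real.tendsto_sqrt_atTop.comp ?_
    exact tendsto_atTop_add_const_right _ _ tendsto_natCast_atTop_atTop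
  exact h1.const_div_atTop _

lemma tendsto_TT (f : X) : Tendsto (fun n => TT n f) atTop (𝓝 0) := by
  rw [Metric.tendsto_atTop]
  intro ε hε
  have hd := ContinuousMap.denseRange_tensorHom (X := B) (Y := B) (R := ℝ)
  obtain ⟨t, ht⟩ := hd.exists_dist_lt f (half_pos hε)
  have hten : ∀ t : TensorProduct ℝ C(B, ℝ) C(B, ℝ),
      Tendsto (fun n => TT n (ContinuousMap.tensorHom t)) atTop (𝓝 0) := by
    intro t
    induction t using TensorProduct.induction_on with
    | zero => simp
    | tmul a b =>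
      rw [ContinuousMap.tensorHom_tmul]
      exact tendsto_TT_prodMul a b
    | add a b ha hb =>
      simp only [map_add]
      simpa using ha.add hb
  obtain ⟨N, hN⟩ := (Metric.tendsto_atTop.1 (hten t)) (ε / 2) (half_pos hε)
  refine ⟨N, fun n hn => ?_⟩
  have h1 := hN n hn
  rw [dist_zero_right] at h1 ⊢
  have h2 : TT n f = TT n (f - ContinuousMap.tensorHom t) + TT n (ContinuousMap.tensorHom t) := by
    rw [← map_add]; simp
  rw [h2]
  calc _ ≤ ‖TT n (f - ContinuousMap.tensorHom t)‖ + ‖TT n (ContinuousMap.tensorHom t)‖ :=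
        norm_add_le _ _
    _ ≤ 1 * ‖f - ContinuousMap.tensorHom t‖ + ‖TT n (ContinuousMap.tensorHom t)‖ := by
        gcongr
        exact (TT n).le_of_opNorm_le (norm_TT n) _
    _ < ε / 2 + ε / 2 := by
        rw [one_mul, ← dist_eq_norm]
        exact add_lt_add ht h1
    _ = ε := by ring

/-- indicator of a column -/
noncomputable def col (c : ℕ) : C(B, ℝ) := ind (fun m => decide ((Nat.unpair m).1 = c))

lemma col_unit (c m : ℕ) : col c (u m) = if (Nat.unpair m).1 = c then 1 else 0 := by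
  unfold col
  rw [ind_unit]
  simp

/-- The weights. -/
noncomputable def wt (n : ℕ) : X :=
  ∑ s : Fin (n + 1) → Bool, ∑ i : Fin (n + 1), sg s i • (col (e1 n s)).prodMul (col (e2 n i))

lemma wt_unit (n : ℕ) (a b : ℕ) : wt n (u a, u b) =
    ∑ s : Fin (n + 1) → Bool, ∑ i : Fin (n + 1),
      sg s i * ((if (Nat.unpair a).1 = e1 n s then 1 else 0) *
        (if (Nat.unpair b).1 = e2 n i then 1 else 0)) := by
  unfold wt
  simp only [ContinuousMap.coe_sum, Finset.sum_apply, ContinuousMap.smul_apply,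
    ContinuousMap.prodMul_apply, col_unit, smul_eq_mul]

lemma wt_same (n : ℕ) (a b : ℕ) (s : Fin (n + 1) → Bool) (i : Fin (n + 1))
    (ha : (Nat.unpair a).1 = e1 n s) (hb : (Nat.unpair b).1 = e2 n i) :
    wt n (u a, u b) = sg s i := by
  rw [wt_unit, Finset.sum_eq_single s, Finset.sum_eq_single i]
  · rw [if_pos ha, if_pos hb]; ring
  · intro j _ hj
    rw [if_neg (c := (Nat.unpair b).1 = e2 n j)]
    · ring
    · intro h
      rw [hb] at h
      have := e2_inj h
      simp at this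
      exact hj this.symm
  · intro h; exact absurd (Finset.mem_univ _) h
  · intro t _ ht
    refine Finset.sum_eq_zero (fun j _ => ?_)
    rw [if_neg (c := (Nat.unpair a).1 = e1 n t)]
    · ring
    · intro h
      rw [ha] at h
      have := e1_inj h
      simp at this
      exact ht this.symm
  · intro h; exact absurd (Finset.mem_univ _) h

lemma wt_ne_zero (n : ℕ) (a b : ℕ) (h : wt n (u a, u b) ≠ 0) :
    ∃ (s : Fin (n + 1) → Bool) (i : Fin (n + 1)), (Nat.unpair a).1 = e1 n s ∧
      (Nat.unpair b).1 = e2 n i := by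
  rw [wt_unit] at h
  obtain ⟨s, _, hs⟩ := Finset.exists_ne_zero_of_sum_ne_zero h
  obtain ⟨i, _, hi⟩ := Finset.exists_ne_zero_of_sum_ne_zero hs
  refine ⟨s, i, ?_, ?_⟩
  · by_contra hcon
    rw [if_neg hcon] at hi
    simp at hi
  · by_contra hcon
    rw [if_neg hcon] at hi
    simp at hi

lemma abs_wt_le (n : ℕ) (a b : ℕ) : |wt n (u a, u b)| ≤ 1 := by
  by_cases h : wt n (u a, u b) = 0
  · rw [h]; simp
  · obtain ⟨s, i, ha, hb⟩ := wt_ne_zero n a b h
    rw [wt_same n a b s i ha hb, abs_sg]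

lemma wt_unique (n m : ℕ) (a b : ℕ) (h : wt n (u a, u b) ≠ 0) (h' : wt m (u a, u b) ≠ 0) :
    n = m := by
  obtain ⟨s, i, ha, hb⟩ := wt_ne_zero n a b h
  obtain ⟨t, j, ha', hb'⟩ := wt_ne_zero m a b h'
  have := e1_inj (ha.symm.trans ha')
  exact congrArg Sigma.fst this

/-- The operators `S n`. -/
noncomputable def SS (n : ℕ) : X →L[ℝ] X :=
  mulL (wt n) ∘L compL (ext2 (fun m => (Nat.unpair m).2) (fun m => (Nat.unpair m).2))

lemma SS_unit (n : ℕ) (h : X) (a b : ℕ) :
    SS n h (u a, u b) = wt n (u a, u b) * h (u (Nat.unpair a).2, u (Nat.unpair b).2) := by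
  unfold SS
  rw [ContinuousLinearMap.comp_apply, mulL_apply, compL_apply, ext2_unit]

lemma TT_SS_unit (n m : ℕ) (h : X) (x y : ℕ) :
    TT n (SS m h) (u x, u y) = ∑ s : Fin (n + 1) → Bool, ∑ i : Fin (n + 1),
      (sg s i / ((n + 1) * 2 ^ (n + 1))) *
        (wt m (u (Nat.pair (e1 n s) x), u (Nat.pair (e2 n i) y)) * h (u x, u y)) := by
  rw [TT_apply]
  simp only [ext_unit, SS_unit, Nat.unpair_pair]

lemma TT_SS (n : ℕ) (h : X) : TT n (SS n h) = h := by
  apply ext_of_dense
  intro x y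
  rw [TT_SS_unit]
  have h1 : ∀ (s : Fin (n + 1) → Bool) (i : Fin (n + 1)),
      (sg s i / ((n + 1) * 2 ^ (n + 1))) *
        (wt n (u (Nat.pair (e1 n s) x), u (Nat.pair (e2 n i) y)) * h (u x, u y))
      = h (u x, u y) / ((n + 1) * 2 ^ (n + 1)) := by
    intro s i
    rw [wt_same n _ _ s i (by simp) (by simp)]
    have := sg_sq s i
    calc _ = (sg s i * sg s i) * (h (u x, u y) / ((n + 1) * 2 ^ (n + 1))) := by ring
      _ = _ := by rw [this, one_mul]
  simp_rw [h1]
  simp only [Finset.sum_const, Finset.card_univ, Fintype.card_fun, Fintype.card_fin,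
    Fintype.card_bool, nsmul_eq_mul]
  push_cast
  field_simp

lemma TT_SS_ne (n m : ℕ) (h : X) (hnm : n ≠ m) : TT n (SS m h) = 0 := by
  apply ext_of_dense
  intro x y
  rw [TT_SS_unit]
  refine Finset.sum_eq_zero (fun s _ => Finset.sum_eq_zero (fun i _ => ?_))
  have : wt m (u (Nat.pair (e1 n s) x), u (Nat.pair (e2 n i) y)) = 0 := by
    by_contra hcon
    refine hnm (wt_unique n m _ _ ?_ hcon)
    rw [wt_same n _ _ s i (by simp) (by simp)]
    have := abs_sg s i
    intro h0
    rw [h0] at this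
    simp at this
  rw [this]
  simp

lemma SS_norm (F : Finset ℕ) (x : ℕ → X) (C : ℝ) (hC : 0 ≤ C) (hx : ∀ n ∈ F, ‖x n‖ ≤ C) :
    ‖∑ n ∈ F, SS n (x n)‖ ≤ C := by
  apply norm_le_of_dense _ _ hC
  intro a b
  have e : (∑ n ∈ F, SS n (x n)) (u a, u b) =
      ∑ n ∈ F, wt n (u a, u b) * x n (u (Nat.unpair a).2, u (Nat.unpair b).2) := by
    simp only [ContinuousMap.coe_sum, Finset.sum_apply, SS_unit]
  rw [e]
  by_cases h : ∃ n ∈ F, wt n (u a, u b) ≠ 0
  · obtain ⟨n, hn, hne⟩ := h
    rw [Finset.sum_eq_single n]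
    · rw [abs_mul]
      calc _ ≤ 1 * ‖x n‖ := by
            gcongr
            · exact abs_wt_le n a b
            · exact (x n).norm_coe_le_norm _
        _ ≤ C := by rw [one_mul]; exact hx n hn
    · intro m _ hm
      have : wt m (u a, u b) = 0 := by
        by_contra hcon
        exact hm (wt_unique m n a b hcon hne)
      rw [this, zero_mul]
    · intro h; exact absurd hn h
  · have h0 : ∑ n ∈ F, wt n (u a, u b) * x n (u (Nat.unpair a).2, u (Nat.unpair b).2) = 0 := by
      refine Finset.sum_eq_zero (fun n hn => ?_)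
      have : wt n (u a, u b) = 0 := by
        by_contra hcon
        exact h ⟨n, hn, hcon⟩
      rw [this, zero_mul]
    rw [h0]
    simpa using hC

/-- Currying as a continuous linear equivalence. -/
noncomputable def curryL : C(OnePoint ℕ × L, ℝ) ≃L[ℝ] C(OnePoint ℕ, X) :=
  { (Homeomorph.curry (X := OnePoint ℕ) (Y := L) (Z := ℝ)) with
    map_add' := fun _ _ => rfl
    map_smul' := fun _ _ => rfl }

/-- `C([0,ω] × βℕ × βℕ)` and `C(βℕ × βℕ)` are isomorphic. -/
theorem main : Nonempty (C(OnePoint ℕ × StoneCech ℕ × StoneCech ℕ, ℝ) ≃L[ℝ]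
    C(StoneCech ℕ × StoneCech ℕ, ℝ)) := by
  obtain ⟨e⟩ := key eX TT SS norm_TT tendsto_TT TT_SS (fun n m x h => TT_SS_ne n m x h) SS_norm
  exact ⟨curryL.trans e⟩

end concrete

end Pool.Agent.Helper61
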